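import Mathlib

/-!
A semi-Eberlein compactum `K ⊆ [-1,1]^I` with `Σ(I) ∩ K` dense in `K` such that no dense subset of
`Σ(I) ∩ K` has the decomposition property.
-/

open Set Topology Filter

namespace Pool.Agent.Results.MP_abc717_gt.NegatedForm

/-- The set of the functions `x : I → ℝ` with countable support. -/
def Sig (I : Type) : Set (I → ℝ) := {x | {i | x i ≠ 0}.Countable}

/-- The set `c₀(Γ)`. -/
def C0 (Γ : Type) : Set (Γ → ℝ) := {x | ∀ ε : ℝ, 0 < ε → {γ | ε < |x γ|}.Finite}

/-- Semi-Eberlein compact spaces: compact Hausdorff spaces `K` with a homeomorphic embedding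
`h : K → [0,1]^Γ` such that the set of the points which `h` maps into `c₀(Γ)` is dense in `K`
(equivalently, `h(K) ∩ c₀(Γ)` is dense in `h(K)`). -/
def SemiEberlein (K : Type) [TopologicalSpace K] : Prop :=
  CompactSpace K ∧ T2Space K ∧ ∃ (Γ : Type) (h : K → Γ → ℝ), IsEmbedding h ∧
    (∀ k γ, 0 ≤ h k γ ∧ h k γ ≤ 1) ∧ Dense {k : K | h k ∈ C0 Γ}

/-- The first uncountable ordinal as a type. -/
abbrev W : Type := (Cardinal.aleph.{0} 1).ord.ToType

theorem countable_Iio (a : W) : (Iio a).Countable := by
  have h := Cardinal.mk_Iio_toType_ord_lt a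
  rw [← Cardinal.le_aleph0_iff_set_countable]
  have h2 : Cardinal.mk (Iio a) < Order.succ Cardinal.aleph0 := by
    refine lt_of_lt_of_eq h Cardinal.succ_aleph0.symm
  exact Order.lt_succ_iff.1 h2

theorem not_countable_W : ¬ (univ : Set W).Countable := by
  intro h
  rw [← Cardinal.le_aleph0_iff_set_countable, Cardinal.mk_univ, Cardinal.mk_ord_toType] at h
  exact absurd h (not_le.2 Cardinal.aleph0_lt_aleph_one)

/-- The compact set: characteristic functions of the pairs `(W \ u, v)` with `α ≤ β` for all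
`α ∈ v`, `β ∈ u`. -/
def K : Set (W ⊕ W → ℝ) :=
  {x | (∀ i, x i = 0 ∨ x i = 1) ∧ ∀ α β : W, β < α → x (Sum.inr α) = 0 ∨ x (Sum.inl β) = 1}

theorem isCompact_K : IsCompact K := by
  have h1 : IsCompact (Set.pi univ (fun _ : W ⊕ W => ({0, 1} : Set ℝ))) :=
    isCompact_univ_pi fun _ => (Set.toFinite _).isCompact
  refine h1.of_isClosed_subset ?_ ?_
  · have e : K = (⋂ i : W ⊕ W, {x : W ⊕ W → ℝ | x i ∈ ({0, 1} : Set ℝ)}) ∩
        ⋂ α : W, ⋂ β : W, ⋂ _ : β < α,
          ({x : W ⊕ W → ℝ | x (Sum.inr α) = 0} ∪ {x : W ⊕ W → ℝ | x (Sum.inl β) = 1}) := by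
      ext x
      simp [K]
    rw [e]
    refine IsClosed.inter ?_ ?_
    · refine isClosed_iInter fun i => ?_
      exact (Set.toFinite ({0, 1} : Set ℝ)).isClosed.preimage (continuous_apply i)
    · refine isClosed_iInter fun α => isClosed_iInter fun β => isClosed_iInter fun _ => ?_
      exact (isClosed_eq (continuous_apply _) continuous_const).union
        (isClosed_eq (continuous_apply _) continuous_const)
  · intro x hx i _
    simpa using hx.1 i

theorem approx {x : W ⊕ W → ℝ} {U : Set (W ⊕ W → ℝ)} (hU : IsOpen U) (hx : x ∈ U) :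
    ∃ F : Finset (W ⊕ W), ∀ y : W ⊕ W → ℝ, (∀ i ∈ F, y i = x i) → y ∈ U := by
  obtain ⟨F, u, hu, hsub⟩ := isOpen_pi_iff.1 hU x hx
  refine ⟨F, fun y hy => hsub ?_⟩
  intro i hi
  rw [hy i hi]
  exact (hu i hi).2

theorem semiEberlein_K : SemiEberlein K := by
  classical
  have hC : CompactSpace K := isCompact_iff_compactSpace.1 isCompact_K
  refine ⟨hC, inferInstance, W ⊕ W,
    fun x i => Sum.elim (fun β => 1 - x.1 (Sum.inl β)) (fun α => x.1 (Sum.inr α)) i, ?_, ?_, ?_⟩
  · have hc : Continuous (fun (x : K) (i : W ⊕ W) =>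
        Sum.elim (fun β => 1 - x.1 (Sum.inl β)) (fun α => x.1 (Sum.inr α)) i) := by
      refine continuous_pi fun i => ?_
      rcases i with β | α
      · exact continuous_const.sub ((continuous_apply _).comp continuous_subtype_val)
      · exact (continuous_apply _).comp continuous_subtype_val
    refine (hc.isClosedEmbedding ?_).isEmbedding
    intro x y hxy
    apply Subtype.ext
    funext i
    rcases i with β | α
    · have := congrFun hxy (Sum.inl β)
      simp only [Sum.elim_inl] at this
      linarith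
    · exact congrFun hxy (Sum.inr α)
  · intro x i
    rcases i with β | α
    · rcases x.2.1 (Sum.inl β) with h | h <;> simp [h]
    · rcases x.2.1 (Sum.inr α) with h | h <;> simp [h]
  · intro x
    rw [mem_closure_iff]
    intro O hO hxO
    obtain ⟨U, hU, rfl⟩ := isOpen_induced_iff.1 hO
    obtain ⟨F, hF⟩ := approx hU hxO
    let y : W ⊕ W → ℝ := fun i => if i ∈ F then x.1 i else Sum.elim (fun _ => 1) (fun _ => 0) i
    have hyF : ∀ i ∈ F, y i = x.1 i := fun i hi => if_pos hi
    have hyK : y ∈ K := by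
      refine ⟨fun i => ?_, fun α β hβα => ?_⟩
      · by_cases hi : i ∈ F
        · rw [hyF i hi]; exact x.2.1 i
        · rcases i with β | α
          · right; simp [y, hi]
          · left; simp [y, hi]
      · by_cases hα : Sum.inr α ∈ F
        · rw [hyF _ hα]
          rcases x.2.2 α β hβα with h | h
          · exact Or.inl h
          · right
            by_cases hβ : Sum.inl β ∈ F
            · rw [hyF _ hβ]; exact h
            · simp [y, hβ]
        · left
          simp [y, hα]
    refine ⟨⟨y, hyK⟩, hF y hyF, ?_⟩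
    intro ε hε
    refine F.finite_toSet.subset ?_
    intro i hi
    by_contra hiF
    have hiF' : i ∉ F := hiF
    rcases i with β | α
    · have h1 : ε < |1 - y (Sum.inl β)| := hi
      simp [y, hiF'] at h1
      linarith
    · have h1 : ε < |y (Sum.inr α)| := hi
      simp [y, hiF'] at h1
      linarith

theorem dense_Sig : K ⊆ closure (Sig (W ⊕ W) ∩ K) := by
  classical
  intro x hx
  rw [mem_closure_iff]
  intro U hU hxU
  obtain ⟨F, hF⟩ := approx hU hxU
  let y : W ⊕ W → ℝ := fun i => if i ∈ F then x i else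
    Sum.elim (fun β => if ∃ α, Sum.inr α ∈ F ∧ β < α then 1 else 0) (fun _ => 0) i
  have hyF : ∀ i ∈ F, y i = x i := fun i hi => if_pos hi
  refine ⟨y, hF y hyF, ?_, ?_, ?_⟩
  · -- the support of `y` is countable
    have hsub : {i | y i ≠ 0} ⊆ (F : Set (W ⊕ W)) ∪
        ⋃ i ∈ F, Sum.inl '' {β : W | ∃ α, i = Sum.inr α ∧ β < α} := by
      intro i hi
      by_cases hiF : i ∈ F
      · exact Or.inl hiF
      · right
        rcases i with β | α
        · have h1 : y (Sum.inl β) ≠ 0 := hi
          by_cases h2 : ∃ α, Sum.inr α ∈ F ∧ β < α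
          · obtain ⟨α, hα, hβα⟩ := h2
            refine mem_iUnion₂.2 ⟨Sum.inr α, hα, β, ⟨α, rfl, hβα⟩, rfl⟩
          · exfalso
            apply h1
            simp [y, hiF, h2]
        · exfalso
          apply (show y (Sum.inr α) ≠ 0 from hi)
          simp [y, hiF]
    refine Countable.mono hsub (F.countable_toSet.union ?_)
    refine F.countable_toSet.biUnion fun i _ => Countable.image ?_ _
    rcases i with β | α
    · convert countable_empty
      ext γ
      simp
    · refine (countable_Iio α).mono ?_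
      rintro γ ⟨α', h, hγ⟩
      rw [Sum.inr.injEq] at h
      rw [h]
      exact hγ
  · intro i
    by_cases hi : i ∈ F
    · rw [hyF i hi]; exact hx.1 i
    · rcases i with β | α
      · by_cases h2 : ∃ α, Sum.inr α ∈ F ∧ β < α
        · right; simp [y, hi, h2]
        · left; simp [y, hi, h2]
      · left; simp [y, hi]
  · intro α β hβα
    by_cases hα : Sum.inr α ∈ F
    · rw [hyF _ hα]
      rcases hx.2 α β hβα with h | h
      · exact Or.inl h
      · right
        by_cases hβ : Sum.inl β ∈ F
        · rw [hyF _ hβ]; exact h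
        · have h2 : ∃ α, Sum.inr α ∈ F ∧ β < α := ⟨α, hα, hβα⟩
          simp [y, hβ, h2]
    · left
      simp [y, hα]

/-- The negated form of Q1: there are a set `I` and a compact `K ⊆ [-1,1]^I` that is semi-Eberlein,
with `Σ(I) ∩ K` dense in `K`, such that for every dense `D ⊆ Σ(I) ∩ K` there is an `ε > 0` such
that every decomposition `I = ⋃ Iₙ` has an `n` and an `x ∈ D` with `{i ∈ Iₙ : |x(i)| > ε}`
infinite. -/
theorem result : ∃ (I : Type) (K : Set (I → ℝ)),
    (∀ x ∈ K, ∀ i, x i ∈ Set.Icc (-1 : ℝ) 1) ∧ IsCompact K ∧ SemiEberlein K ∧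
    K ⊆ closure (Sig I ∩ K) ∧
    ∀ D : Set (I → ℝ), D ⊆ Sig I ∩ K → K ⊆ closure D →
      ∃ ε : ℝ, 0 < ε ∧ ∀ P : ℕ → Set I, (⋃ n, P n) = univ →
        ∃ n, ∃ x ∈ D, {i | i ∈ P n ∧ ε < |x i|}.Infinite := by
  classical
  refine ⟨W ⊕ W, K, ?_, isCompact_K, semiEberlein_K, dense_Sig, ?_⟩
  · intro x hx i
    rcases hx.1 i with h | h <;> rw [h] <;> constructor <;> norm_num
  · intro D hD hKD
    refine ⟨1 / 2, by norm_num, fun P hP => ?_⟩
    -- some `P n` contains uncountably many points of the first copy of `W`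
    have h1 : ∃ n, ¬ {β : W | Sum.inl β ∈ P n}.Countable := by
      by_contra hall
      push Not at hall
      apply not_countable_W
      have h2 : (univ : Set W) = ⋃ n, {β : W | Sum.inl β ∈ P n} := by
        ext β
        simp only [mem_univ, mem_iUnion, true_iff]
        have : (Sum.inl β : W ⊕ W) ∈ ⋃ n, P n := by rw [hP]; trivial
        obtain ⟨n, hn⟩ := mem_iUnion.1 this
        exact ⟨n, hn⟩
      rw [h2]
      exact countable_iUnion hall
    obtain ⟨n, hn⟩ := h1
    have hinf : {β : W | Sum.inl β ∈ P n}.Infinite := fun h => hn h.countable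
    let s : ℕ → W := fun k => (hinf.natEmbedding _ k).1
    have hs : ∀ k, Sum.inl (s k) ∈ P n := fun k => (hinf.natEmbedding _ k).2
    have hsinj : Function.Injective s := fun k l h =>
      (hinf.natEmbedding _).injective (Subtype.ext h)
    obtain ⟨α, hα⟩ : ∃ α : W, ∀ k, s k < α := by
      by_contra hcon
      push Not at hcon
      apply not_countable_W
      have h3 : (univ : Set W) ⊆ ⋃ k, (Iio (s k) ∪ {s k}) := by
        intro α _
        obtain ⟨k, hk⟩ := hcon α
        refine mem_iUnion.2 ⟨k, ?_⟩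
        rcases hk.lt_or_eq with h | h
        · exact Or.inl h
        · exact Or.inr h
      exact (countable_iUnion fun k => (countable_Iio _).union (countable_singleton _)).mono h3
    let x0 : W ⊕ W → ℝ := Sum.elim (fun _ => 1) (fun γ => if γ = α then 1 else 0)
    have hx0 : x0 ∈ K := by
      refine ⟨fun i => ?_, fun γ β _ => Or.inr rfl⟩
      rcases i with β | γ
      · exact Or.inr rfl
      · by_cases h : γ = α
        · right; simp [x0, h]
        · left; simp [x0, h]
    have hO : IsOpen {x : W ⊕ W → ℝ | 1 / 2 < x (Sum.inr α)} :=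
      isOpen_lt continuous_const (continuous_apply _)
    obtain ⟨x, hx1, hxD⟩ := mem_closure_iff.1 (hKD hx0) _ hO (by
      show (1 : ℝ) / 2 < x0 (Sum.inr α)
      simp only [x0, Sum.elim_inr, if_true]
      norm_num)
    have hx1' : (1 : ℝ) / 2 < x (Sum.inr α) := hx1
    have hxK : x ∈ K := (hD hxD).2
    refine ⟨n, x, hxD, ?_⟩
    have hval : ∀ k, x (Sum.inl (s k)) = 1 := by
      intro k
      rcases hxK.2 α (s k) (hα k) with h | h
      · rw [h] at hx1'
        norm_num at hx1'
      · exact h
    have hsub : range (fun k => (Sum.inl (s k) : W ⊕ W)) ⊆ {i | i ∈ P n ∧ 1 / 2 < |x i|} := by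
      rintro _ ⟨k, rfl⟩
      refine ⟨hs k, ?_⟩
      rw [hval k, abs_one]
      norm_num
    exact (infinite_range_of_injective (fun k l h => hsinj (Sum.inl_injective h))).mono hsub

end Pool.Agent.Results.MP_abc717_gt.NegatedForm
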